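import Mathlib
import Pool.Agent.Q209.HFCDefs

/-!
# Every HFC space is a D-space

Let `X ⊆ 2^L` be HFC and let `U` be a neighbourhood assignment, `U x ⊇ X ∩ [x | S x]` for a finite
set `S x` of coordinates. We treat countably many tasks one after another. A task is a point, or a
pair `(q, n)` which stands for the points `x` such that `q ⊆ x | S x` and `S x` has `n` further
elements. If `D` is the set of the points chosen so far, let `c 0, c 1, …` be points whose
neighbourhoods cover `X \ U[D]`.

* If for each `i` and each finite `A` there is a point of the task outside
  `U[D] ∪ U (c 0) ∪ … ∪ U (c (i - 1))` whose further coordinates miss `A`, then choose `y i` in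
  this way with pairwise disjoint further coordinates. The set of the points `y i` is locally finite
  (for the topology generated by the sets `U x`), and by HFC it covers all points of the task but
  countably many, which become new tasks.
* Otherwise add the points `c 0, …, c (i - 1)`; each point of the task which is not covered has a
  further coordinate in the finite set `A`, and this gives finitely many new tasks `(q', n - 1)`.

With a fair enumeration all points are covered and the chosen set is locally finite.
-/

set_option autoImplicit false

namespace Pool.Agent.Results.MP_2abaf2_gt.HFCIsDSpace

open Pool.Agent.Q209.HFCDefs

universe u

/-- Every HFC subspace `X` of a Cantor cube `2^L` (`L` any linearly ordered set, in particular any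
cardinal) is a D-space: each neighbourhood assignment on `X` has a closed discrete kernel. -/
theorem result (L : Type u) [LinearOrder L] (X : Set (L → Bool)) (h : HFC X) : DSpace X :=
  (stronglyD h).dSpace

end Pool.Agent.Results.MP_2abaf2_gt.HFCIsDSpace
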